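import Mathlib

/-!
# The error term of the circle problem at `x` and at `⌊x⌋`
-/

set_option autoImplicit false

open Filter Topology

namespace Pool.Agent.V11109.CIR

/-- The number of lattice points only changes at integers. -/
lemma card_floor {x : ℝ} (hx : 0 ≤ x) :
    Nat.card {p : ℤ × ℤ // (p.1 : ℝ) ^ 2 + (p.2 : ℝ) ^ 2 ≤ x} =
      Nat.card {p : ℤ × ℤ // (p.1 : ℝ) ^ 2 + (p.2 : ℝ) ^ 2 ≤ ((⌊x⌋₊ : ℕ) : ℝ)} := by
  apply Nat.card_congr
  apply Equiv.subtypeEquivRight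
  intro p
  have h0 : (0 : ℤ) ≤ p.1 ^ 2 + p.2 ^ 2 := by positivity
  obtain ⟨m, hm⟩ := Int.eq_ofNat_of_zero_le h0
  have h1 : (p.1 : ℝ) ^ 2 + (p.2 : ℝ) ^ 2 = (m : ℝ) := by
    have : ((p.1 ^ 2 + p.2 ^ 2 : ℤ) : ℝ) = ((m : ℤ) : ℝ) := by rw [hm]
    push_cast at this
    exact this
  rw [h1, Nat.cast_le]
  exact (Nat.le_floor_iff hx).symm

/-- comparison of `E x` and `E ⌊x⌋` -/
lemma cmp (E : ℝ → ℝ)
    (hE : ∀ x : ℝ, E x =
      ((Nat.card {p : ℤ × ℤ // (p.1 : ℝ) ^ 2 + (p.2 : ℝ) ^ 2 ≤ x} : ℝ) - Real.pi * x) /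
        x ^ (1 / 4 : ℝ)) (u ε : ℝ) (hε : 0 < ε) :
    ∃ X0 : ℝ, ∀ x : ℝ, X0 ≤ x → (E ((⌊x⌋₊ : ℕ) : ℝ) ≤ u - ε → E x ≤ u) ∧
      (E x ≤ u → E ((⌊x⌋₊ : ℕ) : ℝ) ≤ u + ε) := by
  refine ⟨max 1 (max (2 * (|u| + ε) / ε) ((2 * Real.pi / ε) ^ 4)), fun x hx => ?_⟩
  have hx1 : 1 ≤ x := (le_max_left _ _).trans hx
  have hx2 : 2 * (|u| + ε) / ε ≤ x := (le_max_left _ _).trans ((le_max_right _ _).trans hx)
  have hx3 : (2 * Real.pi / ε) ^ 4 ≤ x := (le_max_right _ _).trans ((le_max_right _ _).trans hx)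
  have hx0 : 0 < x := by linarith
  set m : ℝ := ((⌊x⌋₊ : ℕ) : ℝ) with hm
  have hmx : m ≤ x := Nat.floor_le hx0.le
  have hmx' : x < m + 1 := Nat.lt_floor_add_one x
  have hm1 : 1 ≤ m := by
    have : 1 ≤ ⌊x⌋₊ := Nat.le_floor (by simpa using hx1)
    rw [hm]
    exact_mod_cast this
  have hm0 : 0 < m := by linarith
  set a : ℝ := (Nat.card {p : ℤ × ℤ // (p.1 : ℝ) ^ 2 + (p.2 : ℝ) ^ 2 ≤ m} : ℝ) - Real.pi * m with ha
  have hEm : E m = a / m ^ (1 / 4 : ℝ) := by rw [hE]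
  have hEx : E x = (a - Real.pi * (x - m)) / x ^ (1 / 4 : ℝ) := by
    rw [hE, card_floor hx0.le, ← hm, ha]
    congr 1
    ring
  have hm4 : 0 < m ^ (1 / 4 : ℝ) := Real.rpow_pos_of_pos hm0 _
  have hx4 : 0 < x ^ (1 / 4 : ℝ) := Real.rpow_pos_of_pos hx0 _
  set ρ : ℝ := m ^ (1 / 4 : ℝ) / x ^ (1 / 4 : ℝ) with hρ
  have hρ0 : 0 < ρ := div_pos hm4 hx4
  have hρ1 : ρ ≤ 1 := by
    rw [hρ, div_le_one hx4]
    exact Real.rpow_le_rpow hm0.le hmx (by norm_num)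
  have hρ2 : 1 - ρ ≤ 1 / x := by
    have h1 : ρ = (m / x) ^ (1 / 4 : ℝ) := by
      rw [hρ, Real.div_rpow hm0.le hx0.le]
    have h2 : m / x ≤ (m / x) ^ (1 / 4 : ℝ) := by
      have := Real.rpow_le_rpow_of_exponent_ge (x := m / x) (div_pos hm0 hx0)
        ((div_le_one hx0).2 hmx) (show (1 / 4 : ℝ) ≤ 1 by norm_num)
      rwa [Real.rpow_one] at this
    have h3 : 1 - m / x ≤ 1 / x := by
      rw [sub_le_iff_le_add, ← add_div, le_div_iff₀ hx0]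
      linarith
    rw [h1]
    linarith
  have hkey : E x = ρ * E m - Real.pi * (x - m) / x ^ (1 / 4 : ℝ) := by
    rw [hEx, hEm, hρ]
    field_simp
  have hπ : 0 ≤ Real.pi * (x - m) / x ^ (1 / 4 : ℝ) := by
    apply div_nonneg _ hx4.le
    exact mul_nonneg Real.pi_pos.le (by linarith)
  have hπ2 : Real.pi * (x - m) / x ^ (1 / 4 : ℝ) ≤ ε / 2 := by
    rw [div_le_iff₀ hx4]
    have h1 : 2 * Real.pi / ε ≤ x ^ (1 / 4 : ℝ) := by
      have h2 := Real.rpow_le_rpow (by positivity) hx3 (show (0 : ℝ) ≤ 1 / 4 by norm_num)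
      rw [← Real.rpow_natCast, ← Real.rpow_mul (by positivity)] at h2
      norm_num at h2
      norm_num
      exact h2
    rw [div_le_iff₀ hε] at h1
    have h2 : Real.pi * (x - m) ≤ Real.pi * 1 := by
      apply mul_le_mul_of_nonneg_left _ Real.pi_pos.le
      linarith
    linarith
  have hsmall : (1 - ρ) * (|u| + ε) ≤ ε / 2 := by
    calc (1 - ρ) * (|u| + ε) ≤ 1 / x * (|u| + ε) :=
          mul_le_mul_of_nonneg_right hρ2 (by positivity)
      _ = (|u| + ε) / x := by ring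
      _ ≤ ε / 2 := by
          rw [div_le_iff₀ hx0]
          rw [div_le_iff₀ hε] at hx2
          linarith
  have h1ρ : 0 ≤ 1 - ρ := by linarith
  constructor
  · intro h
    have h1 : ρ * E m ≤ ρ * (u - ε) := mul_le_mul_of_nonneg_left h hρ0.le
    have h2 : ρ * (u - ε) ≤ u - ε + (1 - ρ) * (|u| + ε) := by
      have h3 : -(u - ε) ≤ |u| + ε := by
        have := neg_le_abs u
        linarith
      have h4 := mul_le_mul_of_nonneg_left h3 h1ρ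
      nlinarith
    linarith
  · intro h
    by_contra hcon
    rw [not_le] at hcon
    have h1 : ρ * (u + ε) ≤ ρ * E m := mul_le_mul_of_nonneg_left hcon.le hρ0.le
    have h2 : u + ε - (1 - ρ) * (|u| + ε) ≤ ρ * (u + ε) := by
      have h3 : u + ε ≤ |u| + ε := by
        have := le_abs_self u
        linarith
      have h4 := mul_le_mul_of_nonneg_left h3 h1ρ
      nlinarith
    have h5 : ρ * (u + ε) < ρ * E m := mul_lt_mul_of_pos_left hcon hρ0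
    linarith

end Pool.Agent.V11109.CIR
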