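import Pool.Agent.Y854.GM.Sets

/-!
# Joint distribution functions along the sequences `⌊α n ^ c⌋`

Let `e : ι → ℕ → ℝ` be a countable family of sequences, given in finite packages, such that each package
has a joint limit law with atomless marginals.  Then outside a set of `α` of dimension less than one
the packages have the same limit laws along `⌊α n ^ c⌋`.
-/

set_option autoImplicit false

open Filter Topology MeasureTheory Finset

namespace Pool.Agent.V11109.CIR

/-- small mass of short intervals -/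
lemma short {ν : Measure ℝ} [IsFiniteMeasure ν] {g : ℝ → ENNReal}
    (hν : ν = volume.withDensity g) {ε : ℝ} (hε : 0 < ε) :
    ∃ δ : ℝ, 0 < δ ∧ ∀ u v : ℝ, v - u < δ → ν.real (Set.Ioc u v) ≤ ε := by
  have hfin : ∫⁻ x, g x ∂volume ≠ ⊤ := by
    have h1 : ν Set.univ = ∫⁻ x, g x ∂volume := by
      rw [hν, withDensity_apply _ MeasurableSet.univ, Measure.restrict_univ]
    rw [← h1]
    exact measure_ne_top _ _
  obtain ⟨δ, hδ, h⟩ := exists_pos_setLIntegral_lt_of_measure_lt hfin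
    (show ENNReal.ofReal ε ≠ 0 by simpa using hε)
  rcases eq_or_ne δ ⊤ with htop | htop
  · refine ⟨1, one_pos, fun u v _ => ?_⟩
    have h1 := h (Set.Ioc u v) (by
      rw [htop, Real.volume_Ioc]
      exact ENNReal.ofReal_lt_top)
    rw [Measure.real, hν, withDensity_apply _ measurableSet_Ioc]
    exact ENNReal.toReal_le_of_le_ofReal hε.le h1.le
  · refine ⟨δ.toReal, ENNReal.toReal_pos hδ.ne' htop, fun u v huv => ?_⟩
    have h1 := h (Set.Ioc u v) (by
      rw [Real.volume_Ioc]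
      rcases le_or_gt (v - u) 0 with h0 | h0
      · rw [ENNReal.ofReal_of_nonpos h0]
        exact hδ
      · exact (ENNReal.ofReal_lt_iff_lt_toReal h0.le htop).2 huv)
    rw [Measure.real, hν, withDensity_apply _ measurableSet_Ioc]
    exact ENNReal.toReal_le_of_le_ofReal hε.le h1.le

/-- no atoms -/
lemma atomless {ν : Measure ℝ} {g : ℝ → ENNReal} (hν : ν = volume.withDensity g) (x : ℝ) :
    ν {x} = 0 := by
  rw [hν]
  exact withDensity_absolutelyContinuous _ _ Real.volume_singleton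

/-- the orthant below `u` -/
def box {k : ℕ} (u : Fin k → ℝ) : Set (Fin k → ℝ) := {x | ∀ i, x i ≤ u i}

lemma measurable_box {k : ℕ} (u : Fin k → ℝ) : MeasurableSet (box u) := by
  have : box u = ⋂ i, {x : Fin k → ℝ | x i ≤ u i} := by
    ext x
    simp [box]
  rw [this]
  exact MeasurableSet.iInter fun i => measurableSet_le (measurable_pi_apply i) measurable_const

/-- the frontier of an orthant -/
lemma frontier_box {k : ℕ} (u : Fin k → ℝ) {ν : Measure ℝ} {g : ℝ → ENNReal}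
    (hν : ν = volume.withDensity g) {μ : Measure (Fin k → ℝ)}
    (hμ : ∀ i, μ.map (fun x => x i) = ν) : μ (frontier (box u)) = 0 := by
  have hcl : IsClosed (box u) := by
    have : box u = ⋂ i, {x : Fin k → ℝ | x i ≤ u i} := by
      ext x
      simp [box]
    rw [this]
    exact isClosed_iInter fun i => isClosed_le (continuous_apply i) continuous_const
  have hop : IsOpen {x : Fin k → ℝ | ∀ i, x i < u i} := by
    have : {x : Fin k → ℝ | ∀ i, x i < u i} = ⋂ i, {x : Fin k → ℝ | x i < u i} := by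
      ext x
      simp
    rw [this]
    exact isOpen_iInter_of_finite fun i => isOpen_lt (continuous_apply i) continuous_const
  have hint : {x : Fin k → ℝ | ∀ i, x i < u i} ⊆ interior (box u) :=
    interior_maximal (fun x hx i => (hx i).le) hop
  have hsub : frontier (box u) ⊆ ⋃ i, (fun x : Fin k → ℝ => x i) ⁻¹' {u i} := by
    intro x hx
    rw [hcl.frontier_eq] at hx
    obtain ⟨h1, h2⟩ := hx
    by_contra hcon
    apply h2
    apply hint
    intro i
    refine lt_of_le_of_ne (h1 i) fun h3 => hcon ?_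
    rw [Set.mem_iUnion]
    exact ⟨i, h3⟩
  refine measure_mono_null hsub (measure_iUnion_null fun i => ?_)
  rw [← Measure.map_apply (measurable_pi_apply i) (measurableSet_singleton _), hμ i]
  exact atomless hν _

/-- Lipschitz type bound for the joint distribution function -/
lemma box_le {k : ℕ} {ν : Measure ℝ} [IsFiniteMeasure ν] {μ : Measure (Fin k → ℝ)} [IsFiniteMeasure μ]
    (hμ : ∀ i, μ.map (fun x => x i) = ν) {ε : ℝ} {u v : Fin k → ℝ}
    (h : ∀ i, ν.real (Set.Ioc (u i) (v i)) ≤ ε) : μ.real (box v) ≤ μ.real (box u) + k * ε := by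
  have hsub : box v ⊆ box u ∪ ⋃ i, (fun x : Fin k → ℝ => x i) ⁻¹' Set.Ioc (u i) (v i) := by
    intro x hx
    by_cases h1 : x ∈ box u
    · exact Or.inl h1
    · right
      simp only [box, Set.mem_ofPred_eq, not_forall, not_le] at h1
      obtain ⟨i, hi⟩ := h1
      rw [Set.mem_iUnion]
      exact ⟨i, hi, hx i⟩
  have h2 : ∀ i, μ.real ((fun x : Fin k → ℝ => x i) ⁻¹' Set.Ioc (u i) (v i)) ≤ ε := by
    intro i
    rw [Measure.real, ← Measure.map_apply (measurable_pi_apply i) measurableSet_Ioc, hμ i]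
    exact h i
  calc μ.real (box v) ≤ μ.real (box u ∪ ⋃ i, (fun x : Fin k → ℝ => x i) ⁻¹' Set.Ioc (u i) (v i)) :=
        measureReal_mono hsub
    _ ≤ μ.real (box u) + μ.real (⋃ i, (fun x : Fin k → ℝ => x i) ⁻¹' Set.Ioc (u i) (v i)) :=
        measureReal_union_le _ _
    _ ≤ μ.real (box u) + ∑ i, μ.real ((fun x : Fin k → ℝ => x i) ⁻¹' Set.Ioc (u i) (v i)) := by
        gcongr
        exact measureReal_iUnion_fintype_le _
    _ ≤ μ.real (box u) + ∑ _i : Fin k, ε := by
        gcongr with i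
        exact h2 i
    _ = μ.real (box u) + k * ε := by simp

open Classical in
/-- **Joint limit laws along real power sequences.** -/
theorem joint (c : ℝ) (hc : 1 < c) {ι : Type} [Countable ι] (K : ι → ℕ)
    (e : (i : ι) → ℕ → Fin (K i) → ℝ) :
    ∃ A : Set ℝ, dimH A < 1 ∧ ∀ α : ℝ, 0 < α → α ∉ A → ∀ (i : ι) (ν : Measure ℝ) (g : ℝ → ENNReal)
      (μ : Measure (Fin (K i) → ℝ)), IsFiniteMeasure ν → IsFiniteMeasure μ →
      ν = volume.withDensity g → (∀ j, μ.map (fun x => x j) = ν) →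
      (∀ u : Fin (K i) → ℝ, ∀ η : ℝ, 0 < η → ∃ N0 : ℕ, ∀ N : ℕ, N0 ≤ N →
        |(((Icc 1 N).filter (fun n : ℕ => e i n ∈ box u)).card : ℝ) - μ.real (box u) * N| ≤ η * N) →
      ∀ u : Fin (K i) → ℝ, Tendsto (fun N : ℕ =>
        (((Icc 1 N).filter (fun n : ℕ => e i ⌊α * (n : ℝ) ^ c⌋₊ ∈ box u)).card : ℝ) / N) atTop
        (𝓝 (μ.real (box u))) := by
  obtain ⟨A, hA, hmain⟩ := Pool.Agent.Y854.GM.sets c hc
    (fun k : (Σ i : ι, (Fin (K i) → ℚ)) => {t : ℕ | e k.1 t ∈ box (fun j => ((k.2 j : ℚ) : ℝ))})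
  refine ⟨A, hA, fun α hα hαA i ν g μ hνf hμf hν hμ hlim u => ?_⟩
  have hIoc : ∀ X : ℕ, Ioc 0 X = Icc 1 X := by
    intro X
    ext t
    simp only [Finset.mem_Ioc, Finset.mem_Icc]
    omega
  -- rational orthants
  have hrat : ∀ q : Fin (K i) → ℚ, ∀ ε : ℝ, 0 < ε → ∃ N0 : ℕ, ∀ N : ℕ, N0 ≤ N →
      (((Icc 1 N).filter (fun n : ℕ => e i ⌊α * (n : ℝ) ^ c⌋₊ ∈ box (fun j => ((q j : ℚ) : ℝ)))).card : ℝ) ≤
        (μ.real (box (fun j => ((q j : ℚ) : ℝ))) + ε) * N ∧
      (μ.real (box (fun j => ((q j : ℚ) : ℝ))) - ε) * N ≤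
      (((Icc 1 N).filter (fun n : ℕ => e i ⌊α * (n : ℝ) ^ c⌋₊ ∈ box (fun j => ((q j : ℚ) : ℝ)))).card : ℝ) := by
    intro q ε hε
    obtain ⟨X0, hX0⟩ := hlim (fun j => ((q j : ℚ) : ℝ)) (ε / 2) (by positivity)
    have h1 := (hmain α hα hαA ⟨i, q⟩ (μ.real (box (fun j => ((q j : ℚ) : ℝ))) + ε / 2) (ε / 2)
      (by positivity)).1 ⟨X0, fun X hX => by
        have h2 := hX0 X hX
        rw [hIoc]
        rw [abs_le] at h2
        have h3 := h2.2
        simp only [Set.mem_ofPred_eq]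
        linarith⟩
    have h2 := (hmain α hα hαA ⟨i, q⟩ (μ.real (box (fun j => ((q j : ℚ) : ℝ))) - ε / 2) (ε / 2)
      (by positivity)).2 ⟨X0, fun X hX => by
        have h2 := hX0 X hX
        rw [hIoc]
        rw [abs_le] at h2
        have h3 := h2.1
        simp only [Set.mem_ofPred_eq]
        linarith⟩
    obtain ⟨N1, hN1⟩ := h1
    obtain ⟨N2, hN2⟩ := h2
    refine ⟨max N1 N2, fun N hN => ⟨?_, ?_⟩⟩
    · have h3 := hN1 N ((le_max_left _ _).trans hN)
      simp only [Set.mem_ofPred_eq] at h3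
      calc _ ≤ _ := h3
        _ = _ := by ring
    · have h3 := hN2 N ((le_max_right _ _).trans hN)
      simp only [Set.mem_ofPred_eq] at h3
      calc _ = _ := by ring
        _ ≤ _ := h3
  rw [Metric.tendsto_atTop]
  intro ε hε
  obtain ⟨δ, hδ, hshort⟩ := short hν (ε := ε / (4 * (K i + 1))) (by positivity)
  have hkε : (K i : ℝ) * (ε / (4 * (K i + 1))) ≤ ε / 4 := by
    have h0 : (0 : ℝ) ≤ K i := Nat.cast_nonneg _
    rw [mul_div_assoc', div_le_div_iff₀ (by positivity) (by norm_num)]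
    nlinarith
  have hq : ∀ j, ∃ q : ℚ, u j - δ < q ∧ (q : ℝ) < u j := fun j => exists_rat_btwn (by linarith)
  have hq' : ∀ j, ∃ q : ℚ, u j < q ∧ (q : ℝ) < u j + δ := fun j => exists_rat_btwn (by linarith)
  choose q hq1 hq2 using hq
  choose q' hq1' hq2' using hq'
  have hup : μ.real (box (fun j => ((q' j : ℚ) : ℝ))) ≤ μ.real (box u) + ε / 4 := by
    refine (box_le hμ (ε := ε / (4 * (K i + 1))) (u := u) (v := fun j => ((q' j : ℚ) : ℝ))
      (fun j => hshort _ _ (by have := hq2' j; linarith))).trans ?_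
    linarith
  have hlo : μ.real (box u) - ε / 4 ≤ μ.real (box (fun j => ((q j : ℚ) : ℝ))) := by
    have := box_le hμ (ε := ε / (4 * (K i + 1))) (u := fun j => ((q j : ℚ) : ℝ)) (v := u)
      (fun j => hshort _ _ (by have := hq1 j; linarith))
    linarith
  obtain ⟨N1, hN1⟩ := hrat q (ε / 4) (by positivity)
  obtain ⟨N2, hN2⟩ := hrat q' (ε / 4) (by positivity)
  refine ⟨max (max N1 N2) 1, fun N hN => ?_⟩
  have hN1' : N1 ≤ N := (le_max_left _ _).trans ((le_max_left _ _).trans hN)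
  have hN2' : N2 ≤ N := (le_max_right _ _).trans ((le_max_left _ _).trans hN)
  have hN0 : (0 : ℝ) < N := by
    have : 1 ≤ N := (le_max_right _ _).trans hN
    exact_mod_cast this
  have h1 := (hN1 N hN1').2
  have h2 := (hN2 N hN2').1
  have h3 : (((Icc 1 N).filter (fun n : ℕ => e i ⌊α * (n : ℝ) ^ c⌋₊ ∈ box (fun j => ((q j : ℚ) : ℝ)))).card : ℝ) ≤
      (((Icc 1 N).filter (fun n : ℕ => e i ⌊α * (n : ℝ) ^ c⌋₊ ∈ box u)).card : ℝ) := by
    have : ((Icc 1 N).filter (fun n : ℕ => e i ⌊α * (n : ℝ) ^ c⌋₊ ∈ box (fun j => ((q j : ℚ) : ℝ)))) ⊆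
      ((Icc 1 N).filter (fun n : ℕ => e i ⌊α * (n : ℝ) ^ c⌋₊ ∈ box u)) := by
      intro n hn
      rw [Finset.mem_filter] at hn ⊢
      exact ⟨hn.1, fun j => (hn.2 j).trans (hq2 j).le⟩
    exact_mod_cast Finset.card_le_card this
  have h4 : (((Icc 1 N).filter (fun n : ℕ => e i ⌊α * (n : ℝ) ^ c⌋₊ ∈ box u)).card : ℝ) ≤
      (((Icc 1 N).filter (fun n : ℕ => e i ⌊α * (n : ℝ) ^ c⌋₊ ∈ box (fun j => ((q' j : ℚ) : ℝ)))).card : ℝ) := by
    have : ((Icc 1 N).filter (fun n : ℕ => e i ⌊α * (n : ℝ) ^ c⌋₊ ∈ box u)) ⊆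
      ((Icc 1 N).filter (fun n : ℕ => e i ⌊α * (n : ℝ) ^ c⌋₊ ∈ box (fun j => ((q' j : ℚ) : ℝ)))) := by
      intro n hn
      rw [Finset.mem_filter] at hn ⊢
      exact ⟨hn.1, fun j => (hn.2 j).trans (hq1' j).le⟩
    exact_mod_cast Finset.card_le_card this
  rw [Real.dist_eq]
  have h5 : (((Icc 1 N).filter (fun n : ℕ => e i ⌊α * (n : ℝ) ^ c⌋₊ ∈ box u)).card : ℝ) / N ≤
      μ.real (box u) + ε / 2 := by
    rw [div_le_iff₀ hN0]
    calc _ ≤ _ := h4.trans h2
      _ ≤ (μ.real (box u) + ε / 4 + ε / 4) * N := by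
        apply mul_le_mul_of_nonneg_right _ hN0.le
        linarith
      _ = _ := by ring
  have h6 : μ.real (box u) - ε / 2 ≤
      (((Icc 1 N).filter (fun n : ℕ => e i ⌊α * (n : ℝ) ^ c⌋₊ ∈ box u)).card : ℝ) / N := by
    rw [le_div_iff₀ hN0]
    calc (μ.real (box u) - ε / 2) * N ≤ (μ.real (box (fun j => ((q j : ℚ) : ℝ))) - ε / 4) * N := by
          apply mul_le_mul_of_nonneg_right _ hN0.le
          linarith
      _ ≤ _ := h1.trans h3
  rw [abs_lt]
  constructor <;> linarith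

end Pool.Agent.V11109.CIR
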